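import Mathlib

open scoped ENNReal

namespace Pool.Agent.Results.MP_43e0cc_an.Jordan

variable {𝕜 : Type} [RCLike 𝕜] {p : ℝ≥0∞} [hp : Fact (1 ≤ p)]

lemma dom (hp' : p ≠ ∞) {E F : Type} [NormedAddCommGroup E] [NormedAddCommGroup F]
    (x : lp (fun _ : ℤ => E) p) (y : ℤ → F) (j : ℤ) {C : ℝ} (hC : 0 ≤ C)
    (h : ∀ n, ‖y n‖ ≤ C * ‖x (n + j)‖) : ∃ z : lp (fun _ : ℤ => F) p, ⇑z = y ∧ ‖z‖ ≤ C * ‖x‖ := by
  have hp1 : 0 < p.toReal := ENNReal.toReal_pos (zero_lt_one.trans_le hp.out).ne' hp'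
  have h1 := lp.hasSum_norm hp1 x
  have h2 : ∀ s : Finset ℤ, ∑ i ∈ s, ‖y i‖ ^ p.toReal ≤ (C * ‖x‖) ^ p.toReal := by
    intro s
    rw [Real.mul_rpow hC (norm_nonneg _)]
    calc _ ≤ ∑ i ∈ s, C ^ p.toReal * ‖x (i + j)‖ ^ p.toReal := Finset.sum_le_sum fun i _ => by
          rw [← Real.mul_rpow hC (norm_nonneg _)]
          exact Real.rpow_le_rpow (norm_nonneg _) (h i) hp1.le
      _ ≤ _ := by
          rw [← Finset.mul_sum]
          refine mul_le_mul_of_nonneg_left ?_ (by positivity)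
          rw [← Finset.sum_image (f := fun i => ‖x i‖ ^ p.toReal) (g := fun i => i + j)
            (fun a _ b _ h => by simpa using h)]
          exact sum_le_hasSum _ (fun _ _ => by positivity) h1
  exact ⟨⟨y, memℓp_gen' h2⟩, rfl, lp.norm_le_of_forall_sum_le hp1 (by positivity) h2⟩

lemma dom' (hp' : p ≠ ∞) {E F : Type} [NormedAddCommGroup E] [NormedAddCommGroup F]
    (x : lp (fun _ : ℤ => E) p) (y : lp (fun _ : ℤ => F) p) (j : ℤ) {C : ℝ} (hC : 0 ≤ C)
    (h : ∀ n, ‖y n‖ ≤ C * ‖x (n + j)‖) : ‖y‖ ≤ C * ‖x‖ := by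
  obtain ⟨z, h1, h2⟩ := dom hp' x y j hC h
  rwa [← lp.ext h1]

noncomputable def J (𝕜 : Type) [RCLike 𝕜] : EuclideanSpace 𝕜 (Fin 2) ≃L[𝕜] EuclideanSpace 𝕜 (Fin 2) :=
  LinearEquiv.toContinuousLinearEquiv
    { toFun := fun v => !₂[v 0 + v 1, v 1]
      invFun := fun v => !₂[v 0 - v 1, v 1]
      map_add' := fun v w => by ext i; fin_cases i <;> simp; ring
      map_smul' := fun c v => by ext i; fin_cases i <;> simp; ring
      left_inv := fun v => by ext i; fin_cases i <;> simp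
      right_inv := fun v => by ext i; fin_cases i <;> simp }

/-- Euclidean `𝕜 ^ 2` -/
abbrev E (𝕜 : Type) : Type := EuclideanSpace 𝕜 (Fin 2)

/-- `ℓ_p(ℤ, F)` -/
abbrev L (F : Type) [NormedAddCommGroup F] (p : ℝ≥0∞) : Type := lp (fun _ : ℤ => F) p

/-- bounded operators on `X` -/
abbrev Op (𝕜 X : Type) [RCLike 𝕜] [NormedAddCommGroup X] [NormedSpace 𝕜 X] : Type := X →L[𝕜] X

/-- `S n` and their inverses are uniformly bounded -/
def Bdd {F : Type} [NormedAddCommGroup F] [NormedSpace 𝕜 F] (S : ℤ → F ≃L[𝕜] F) : Prop :=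
  ∃ C : ℝ, ∀ n v, ‖S n v‖ ≤ C * ‖v‖ ∧ ‖(S n).symm v‖ ≤ C * ‖v‖

/-- `σ` is the shift operator generated by a bounded sequence `S` with bounded inverses -/
def IsGen {F : Type} [NormedAddCommGroup F] [NormedSpace 𝕜 F] (σ : Op 𝕜 (L F p)) : Prop :=
  ∃ S : ℤ → F ≃L[𝕜] F, Bdd S ∧ ∀ x n, σ x n = S (n + 1) (x (n + 1))

/-- `B` is a weighted backward shift with nonzero weights -/
def IsShift (B : Op 𝕜 (L 𝕜 p)) : Prop :=
  ∃ ω : ℤ → 𝕜, (∀ n, ω n ≠ 0) ∧ ∀ x n, B x n = ω (n + 1) * x (n + 1)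

/-- `σ` is linearly conjugate to the product of the `B i` -/
def Conj {X Y : Type} [NormedAddCommGroup X] [NormedSpace 𝕜 X] [NormedAddCommGroup Y]
    [NormedSpace 𝕜 Y] {k : ℕ} (σ : Op 𝕜 X) (B : Fin k → Op 𝕜 Y) : Prop :=
  ∃ H : X ≃L[𝕜] (Fin k → Y), ∀ x i, H (σ x) i = B i (H x i)

theorem result (𝕜 : Type) [RCLike 𝕜] (p : ℝ≥0∞) [Fact (1 ≤ p)] (hp' : p ≠ ∞) :
    ∃ σ : Op 𝕜 (L (E 𝕜) p), IsGen σ ∧
      ∀ (k : ℕ) (B : Fin k → Op 𝕜 (L 𝕜 p)), (∀ i, IsShift (B i)) → ¬ Conj σ B := by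
  have hp0 : p ≠ 0 := (zero_lt_one.trans_le (Fact.out : 1 ≤ p)).ne'
  let A := (J 𝕜 : EuclideanSpace 𝕜 (Fin 2) →L[𝕜] EuclideanSpace 𝕜 (Fin 2))
  let A' := ((J 𝕜).symm : EuclideanSpace 𝕜 (Fin 2) →L[𝕜] EuclideanSpace 𝕜 (Fin 2))
  choose T0 hT0 using fun x : lp (fun _ : ℤ => EuclideanSpace 𝕜 (Fin 2)) p =>
    dom hp' x (fun n => J 𝕜 (x (n + 1))) 1 (norm_nonneg A) fun n => A.le_opNorm _
  let σ : lp (fun _ : ℤ => EuclideanSpace 𝕜 (Fin 2)) p →L[𝕜]
      lp (fun _ : ℤ => EuclideanSpace 𝕜 (Fin 2)) p := LinearMap.mkContinuous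
    { toFun := T0
      map_add' := fun x y => lp.ext (by
        rw [lp.coeFn_add, (hT0 _).1, (hT0 _).1, (hT0 _).1]; funext n; simp)
      map_smul' := fun c x => lp.ext (by
        rw [RingHom.id_apply, lp.coeFn_smul, (hT0 _).1, (hT0 _).1]; funext n; simp) } ‖A‖
      fun x => (hT0 x).2
  have hσ : ∀ x n, σ x n = J 𝕜 (x (n + 1)) := fun x n => congrFun (hT0 x).1 n
  refine ⟨σ, ⟨fun _ => J 𝕜, ⟨max ‖A‖ ‖A'‖, fun n v => ⟨(A.le_opNorm v).trans (by gcongr; simp),
    (A'.le_opNorm v).trans (by gcongr; simp)⟩⟩, hσ⟩, ?_⟩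
  rintro k B hB ⟨H, hH⟩
  choose ω hω hB using hB
  have pw : ∀ (m : ℕ) x n, (σ ^ m) x n 0 = x (n + m) 0 + m * x (n + m) 1 ∧
      (σ ^ m) x n 1 = x (n + m) 1 := by
    intro m
    induction m with
    | zero => intro x n; simp
    | succ m ih =>
      intro x n
      rw [pow_succ', mul_apply_eq_comp, hσ]
      have e : n + ((m + 1 : ℕ) : ℤ) = n + 1 + m := by push_cast; ring
      rw [e]
      constructor
      · show (σ ^ m) x (n + 1) 0 + (σ ^ m) x (n + 1) 1 = _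
        rw [(ih x _).1, (ih x _).2]; push_cast; ring
      · exact (ih x _).2
  have bd : ∀ x (C : ℝ), (∀ m : ℕ, ‖(σ ^ m) x‖ ≤ C) → ∀ n, x n 1 = 0 := by
    intro x C h n
    by_contra hn
    obtain ⟨m, hm⟩ := exists_nat_gt ((C + ‖x n 0‖) / ‖x n 1‖)
    rw [div_lt_iff₀ (norm_pos_iff.2 hn)] at hm
    have h1 := ((PiLp.norm_apply_le _ 0).trans (lp.norm_apply_le_norm hp0 ((σ ^ m) x) (n - m))).trans (h m)
    rw [(pw m x _).1, sub_add_cancel] at h1
    have h2 := norm_sub_le (x n 0 + m * x n 1) (x n 0)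
    rw [add_sub_cancel_left, norm_mul, RCLike.norm_natCast] at h2
    linarith
  have iso : ∀ x : lp (fun _ : ℤ => EuclideanSpace 𝕜 (Fin 2)) p, (∀ n, x n 1 = 0) → ∀ m : ℕ,
      ‖(σ ^ m) x‖ ≤ ‖x‖ := by
    intro x hx m
    simpa using dom' hp' x ((σ ^ m) x) m zero_le_one fun n => by
      rw [one_mul]
      refine le_of_eq (congrArg _ ?_)
      ext i; fin_cases i
      · simpa [hx] using (pw m x n).1
      · exact (pw m x n).2
  have quo : ∀ x (m : ℕ), ∃ y : lp (fun _ : ℤ => EuclideanSpace 𝕜 (Fin 2)) p, (∀ n, y n 1 = 0) ∧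
      ‖(σ ^ m) x - y‖ ≤ ‖x‖ := by
    intro x m
    obtain ⟨w, h1, h2⟩ := dom hp' x (fun n => (EuclideanSpace.single 1 (x (n + m) 1) :
      EuclideanSpace 𝕜 (Fin 2))) m zero_le_one fun n => by
        simpa using PiLp.norm_apply_le (x (n + m)) 1
    refine ⟨(σ ^ m) x - w, fun n => ?_, by simpa using h2⟩
    rw [lp.coeFn_sub, Pi.sub_apply, PiLp.sub_apply, (pw m x n).2, h1]
    simp
  let Ω : Fin k → ℤ → ℕ → 𝕜 := fun i n m => ∏ t ∈ Finset.range m, ω i (n + t + 1)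
  have Hp : ∀ (m : ℕ) x i n, H ((σ ^ m) x) i n = Ω i n m * H x i (n + m) := by
    intro m
    induction m with
    | zero => intro x i n; simp [Ω]
    | succ m ih =>
      intro x i n
      rw [pow_succ, mul_apply_eq_comp, ih, hH, hB]
      simp only [Ω, Finset.prod_range_succ]
      push_cast
      rw [mul_assoc, add_assoc]
  let M := (H : lp (fun _ : ℤ => EuclideanSpace 𝕜 (Fin 2)) p →L[𝕜] (Fin k → lp (fun _ : ℤ => 𝕜) p))
  let L' := (H.symm : (Fin k → lp (fun _ : ℤ => 𝕜) p) →L[𝕜] lp (fun _ : ℤ => EuclideanSpace 𝕜 (Fin 2)) p)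
  have hL : ∀ x i, ‖H x i‖ ≤ ‖M‖ * ‖x‖ := fun x i => (norm_le_pi_norm _ i).trans (M.le_opNorm x)
  have hL' : ∀ x (C : ℝ), 0 ≤ C → (∀ i, ‖H x i‖ ≤ C) → ‖x‖ ≤ ‖L'‖ * C := fun x C hC h => by
    have := L'.le_opNorm (H x)
    simp only [L', ContinuousLinearEquiv.coe_coe, ContinuousLinearEquiv.symm_apply_apply] at this
    exact this.trans (mul_le_mul_of_nonneg_left ((pi_norm_le_iff_of_nonneg hC).2 h) (norm_nonneg _))
  have key : ∀ i n m, ‖Ω i n m‖ ≤ ‖M‖ * ‖L'‖ := by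
    intro i
    let e : ℤ → lp (fun _ : ℤ => EuclideanSpace 𝕜 (Fin 2)) p := fun j =>
      H.symm (Pi.single i (lp.single p j 1))
    have he : ∀ j i' n, H (e j) i' n = if i' = i ∧ n = j then 1 else 0 := by
      intro j i' n
      simp only [e, ContinuousLinearEquiv.apply_symm_apply]
      by_cases h : i' = i
      · subst h; simp [lp.single_apply, Pi.single_apply]
      · simp [h]
    have hs : ∀ j, ‖(lp.single p j 1 : lp (fun _ : ℤ => 𝕜) p)‖ = 1 := fun j => by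
      rw [lp.norm_single (pos_iff_ne_zero.2 hp0), norm_one]
    have ho : ∀ j (m : ℕ), ‖(σ ^ m) (e j)‖ ≤ ‖L'‖ * ‖Ω i (j - m) m‖ := fun j m =>
      hL' _ _ (norm_nonneg _) fun i' => by
        have := dom' hp' (lp.single p j 1 : lp (fun _ : ℤ => 𝕜) p) (H ((σ ^ m) (e j)) i') m
          (norm_nonneg (Ω i (j - m) m)) fun n => by
            rw [Hp, he]
            split_ifs with h
            · obtain ⟨rfl, rfl⟩ := h; simp [lp.single_apply]
            · rw [mul_zero, norm_zero]; positivity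
        rwa [hs, mul_one] at this
    have h1 : ∀ j (m : ℕ), ‖H ((σ ^ m) (e j)) i‖ ≤ ‖M‖ * ‖e j‖ := by
      by_cases hc : ∀ y : lp (fun _ : ℤ => EuclideanSpace 𝕜 (Fin 2)) p, (∀ n, y n 1 = 0) → H y i = 0
      · intro j m
        obtain ⟨y, a1, a2⟩ := quo (e j) m
        have := hL ((σ ^ m) (e j) - y) i
        rw [map_sub, Pi.sub_apply, hc y a1, sub_zero] at this
        exact this.trans (by gcongr)
      · push Not at hc
        obtain ⟨y, a1, a2⟩ := hc
        obtain ⟨j, hj⟩ : ∃ j, H y i j ≠ 0 := by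
          by_contra h
          push Not at h
          exact a2 (lp.ext (funext h))
        have a3 : ∀ n, e j n 1 = 0 := bd _ (‖L'‖ * (‖M‖ * ‖y‖ / ‖H y i j‖)) fun m => by
          refine (ho j m).trans (mul_le_mul_of_nonneg_left ?_ (norm_nonneg _))
          rw [le_div_iff₀ (norm_pos_iff.2 hj)]
          have := (lp.norm_apply_le_norm hp0 _ (j - m)).trans (hL ((σ ^ m) y) i)
          rw [Hp, sub_add_cancel, norm_mul] at this
          exact this.trans (mul_le_mul_of_nonneg_left (iso y a1 m) (norm_nonneg _))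
        have a4 : ∀ j n, e (j + 1) (n + 1) 1 = ω i (j + 1) * e j n 1 := by
          intro j n
          have : σ (e (j + 1)) = ω i (j + 1) • e j := H.injective (by
            funext i'
            refine lp.ext (funext fun n => ?_)
            rw [hH, hB, map_smul, Pi.smul_apply, lp.coeFn_smul, Pi.smul_apply, he, he]
            by_cases h : i' = i ∧ n = j
            · obtain ⟨rfl, rfl⟩ := h; simp
            · simp [h])
          have h2 := (pw 1 (e (j + 1)) n).2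
          rw [pow_one, this] at h2
          simpa using h2.symm
        have a5 : ∀ j' n, e j' n 1 = 0 := by
          intro j'
          induction j' using Int.inductionOn' (b := j) with
          | zero => exact a3
          | succ l _ ih => intro n; simpa [ih] using a4 l (n - 1)
          | pred l _ ih => intro n; simpa [ih, hω] using a4 (l - 1) n
        intro j' m
        exact (hL _ i).trans (mul_le_mul_of_nonneg_left (iso _ (a5 j') m) (norm_nonneg _))
    intro n m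
    have h2 := (lp.norm_apply_le_norm hp0 _ n).trans (h1 (n + m) m)
    rw [Hp, he, if_pos ⟨rfl, rfl⟩, mul_one] at h2
    have h3 := ho (n + m) 0
    simp only [pow_zero, one_apply_eq_self, Ω, Finset.range_zero, Finset.prod_empty,
      norm_one, mul_one] at h3
    exact h2.trans (by gcongr)
  let x : lp (fun _ : ℤ => EuclideanSpace 𝕜 (Fin 2)) p := lp.single p 0 (EuclideanSpace.single 1 1)
  have := bd x (‖L'‖ * (‖M‖ * ‖L'‖ * (‖M‖ * ‖x‖))) (fun m => hL' _ _ (by positivity) fun i =>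
    (dom' hp' (H x i) _ m (by positivity) fun n => by
      rw [Hp, norm_mul]; exact mul_le_mul_of_nonneg_right (key i n m) (norm_nonneg _)).trans
      (mul_le_mul_of_nonneg_left (hL x i) (by positivity))) 0
  simp [x, lp.single_apply] at this

end Pool.Agent.Results.MP_43e0cc_an.Jordan
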